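import Mathlib
import Pool.Agent.Q70.CT.Hodge
import Pool.Agent.Y1.CT.CodimNum

/-!
# The standard conjecture of Hodge type for the products of all varieties with abelian varieties of
almost all slope types of all CM fields

Let `K i` (`i` in a finite set) be CM fields of degree `2 g i`. Nothing is assumed about their Galois
groups. They are pairwise independent: for `i ≠ k` and all complex embeddings `φ` of `K i` and `ψ` of
`K k` some automorphism of `ℂ` is the identity on `φ (K i)` and the complex conjugation on `ψ (K k)`
(this is no condition if there is only one field). We fix an isomorphism `ν` of the algebraic closure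
of `ℚ_p` with `ℂ`; it defines a `p`-adic valuation of `ℂ`, with the value one at `p`. Let `M i` be a
function with nonzero integral values, all of which divide `n i`, on the complex embeddings of
`K i`, invariant under complex conjugation. A CM type `Φ i` of `K i` (a choice of one element out of
each complex conjugate pair of embeddings; there are `2 ^ (g i)` types), `M i` and a real number
`κ ≠ 0` prescribe the slopes `(a + κ M) / 2` (at the embeddings in `Φ i`) and `(a - κ M) / 2` (outside
of `Φ i`) of a Weil number for `p ^ a` in `K i` (`HasType`). The case `M = 1`, `κ = a` is the case of
ordinary abelian varieties.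

There are `2 ^ (∑ i, g i)` families of CM types `Φ i` of the fields `K i`. A family is exceptional
(`exceptionalFamilies ν K M`) if the following statement (`Holds`) is false for it. Let `π i` be Weil
numbers for `q = p ^ a` that generate the fields `K i` and have the slope types `Φ i`, `M i`, and let
`f i` be monic polynomials whose complex roots are conjugates of `π i` (`IsPolyOf`). Let `A` be an
abelian variety over an algebraic closure of a finite field which over the field with `Q = q ^ s`
elements is isogenous to a product of powers of abelian varieties coming from the field with `q`
elements, with characteristic polynomials of Frobenius `f i` (`IsAbelianFrobenius`, starting files),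
and let `Z` be **any** smooth projective variety such that the eigenvalues `ρ` of Frobenius on the
cohomology of `Z` and their conjugates are unrelated to the fields `K i` (`UnrelatedTo`): a function
`n` on the complex embeddings of `K i` with `n (conj φ) = - n φ` which is invariant under all
automorphisms of `ℂ` that fix a power of `ρ` is zero. This is so, for instance, if a power of `ρ` lies
in a field linearly disjoint from the normal closures of the `K i`, or in a totally real field, or if
the degree of `ρ` is less than `2 g i` and the representation of the Galois group on the functions `n`
is irreducible, as it is for generic CM fields. Then (`HodgeTypeTimes`)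

* each divisor `C` on `A × Z` is homologically equivalent to a sum `D × Z + A × B` of divisors from
  the factors;
* for **every** divisor `C` with hard Lefschetz, `D` and `B` satisfy hard Lefschetz, and **if the
  conjecture of Hodge type holds for `(A, D)` then it holds for `(A × Z, C)` if and only if it holds
  for `(Z, B)`.**

The conjecture of Hodge type for `(A, D)` is known for ample `D`: all algebraic classes on these `A`
are combinations of products of divisor classes, for which Milne proved the positivity. Nothing is
assumed on `Z`: neither the conjecture B, nor the conjecture D, nor the Tate conjecture, nor the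
semisimplicity of Frobenius. The conjecture of Hodge type is not known to be stable under products
(even with surfaces). It holds for instance for `A × Z` and all polarizations if `dim Z ≤ 3`, by the
Hodge index theorem; in this generality (`A` of arbitrarily large dimension, `Z` any unrelated
threefold) not even the conjecture D is known for `Z`. The cohomology is any Weil cohomology with
algebraically closed coefficient field, for instance `ℓ`-adic cohomology for every `ℓ`, or crystalline
cohomology, with extended coefficients.

The theorem bounds the number of the exceptional families: it is at most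
`2 ^ (∑ i, g i) * ∑ i, C * (n i) ^ 2 * rate (K i) (g i) (q i)`, with an absolute constant `C`. Here
`q i` is any prime factor of `g i` (or `q i = 1`), and `rate K g q` is `(1 + log (2 g)) ^ 16` times
the smaller of the numbers

* `W (K) / √g`, where (second part of the theorem, `WeightEstimate`) `W (K) ≤ N ^ 2 * D ^ (1 / 4)`;
  `N` is the number of the CM subfields of `K` (with `K`) and `D` is the largest degree of a CM
  subfield of `K` that is normal over `ℚ` with a nonabelian Galois group (`D = 1` if there are none);
* `√g / q`.

So the exceptional types are a proportion `O (n ^ 2 * g ^ (-1 / 4) * (log g) ^ 16)` of all types of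
all CM fields with a bounded number of CM subfields, and `O (n ^ 2 * g ^ (-1 / 2) * (log g) ^ 16)` if
the normal nonabelian ones have bounded degrees; and they are a proportion
`O (n ^ 2 * g ^ (-δ) * (log g) ^ 16)` of the types of all CM fields `K`, with any number of subfields,
whose degree is divisible by a prime number `q ≥ g ^ (1 / 2 + δ)`. The counting and the relations
with the eigenvalues of `Z` are those of the starting files (`AllCMTypesTimes` of MP_0273e8_ag, where
the conclusion is about the conjecture A), the reduction for the products on which all algebraic
classes split is the one of `AlmostAllTimesVarieties` in this folder, where `A` is replaced by the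
members of families with large monodromy.
-/

set_option autoImplicit false

namespace Pool.Agent.Results.MP_361a6f_ag.AllCMTypesTimes

open NumberField Module Pool.Agent.H204R3.CM Pool.Agent.H977R3.CM Pool.Agent.TH170
  Pool.Agent.Y1.KN Pool.Agent.Y1.CT Pool.Agent.Q70.CT

/-- The reduction of the conjecture of Hodge type for `A × Z` to the one for `Z` holds for all abelian
varieties `A` whose Frobenius eigenvalues are powers of conjugates of Weil numbers with the slope
types `Φ i`, `M i`, and all `Z` unrelated to the fields `K i`. -/
def Holds {p : ℕ} [Fact p.Prime] (ν : PadicAlgCl p ≃+* ℂ) {I : Type} (K : I → Type)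
    [∀ i, Field (K i)] [∀ i, NumberField (K i)] [∀ i, IsCMField (K i)]
    (M : ∀ i, (K i →+* ℂ) → ℤ) (Φ : ∀ i, Set (K i →+* ℂ)) : Prop :=
  ForAllTypes ν K M (HodgeTypeTimes K) Φ

/-- The exceptional families of CM types. -/
def exceptionalFamilies {p : ℕ} [Fact p.Prime] (ν : PadicAlgCl p ≃+* ℂ) {I : Type} (K : I → Type)
    [∀ i, Field (K i)] [∀ i, NumberField (K i)] [∀ i, IsCMField (K i)]
    (M : ∀ i, (K i →+* ℂ) → ℤ) : Set (∀ i, Set (K i →+* ℂ)) :=
  {Φ | (∀ i, IsCMType (Φ i)) ∧ ¬ Holds ν K M Φ}

/-- **The conjecture of Hodge type for `A × Z` is equivalent to the one for `Z`, for the abelian
varieties `A` of almost all slope types of all CM fields and all unrelated varieties `Z`.** -/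
theorem result :
    (∃ C : ℝ, 0 ≤ C ∧ ∀ (p : ℕ) [Fact p.Prime] (ν : PadicAlgCl p ≃+* ℂ) (I : Type) [Fintype I]
      (K : I → Type) [∀ i, Field (K i)] [∀ i, NumberField (K i)] [∀ i, IsCMField (K i)]
      (M : ∀ i, (K i →+* ℂ) → ℤ) (n g q : I → ℕ), PairwiseIndep K →
      (∀ i φ, M i (ComplexEmbedding.conjugate φ) = M i φ) → (∀ i, n i ≠ 0) →
      (∀ i φ, M i φ ∣ (n i : ℤ)) → (∀ i, finrank ℚ (K i) = 2 * g i) →
      (∀ i, q i ∣ g i ∧ (q i = 1 ∨ (q i).Prime)) →
      ((exceptionalFamilies ν K M).ncard : ℝ) ≤
        2 ^ (∑ i, g i) * ∑ i, C * (n i : ℝ) ^ 2 * rate (K i) (g i) (q i)) ∧
    WeightEstimate := by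
  obtain ⟨C, hC0, hC⟩ := ncard_of_unrel
  refine ⟨⟨C, hC0, ?_⟩, weight_estimate_holds⟩
  intro p _ ν I _ K _ _ _ M n g q hind hM hn hMn hg hq
  exact hC p ν I K M n g q hind hM hn hMn hg hq _ fun Q f hQ hR => hodgeTypeTimes hQ hR

end Pool.Agent.Results.MP_361a6f_ag.AllCMTypesTimes
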