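import Pool.Agent.Q70.KM.CMain

/-!
# Zero-cycles on the surfaces `(C × D) / (σ × τ)` for cyclic coverings of the projective line

Let `C` and `D` be smooth projective curves over an algebraically closed field `k` of characteristic
zero (for example the field of algebraic numbers), `σ` and `τ` automorphisms of finite order of `C`
and `D` such that `C / σ` and `D / τ` are projective lines (`CyclicCover`), and `o` and `o'` fixed
points of `σ` and `τ`. For instance, let `C` be the curve `y^m = f(x)` and `D` the curve
`w^m = g(z)`, `o` and `o'` the points at infinity, the degrees of `f` and `g` being prime to `m`.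
Let `X = (C × D) / (σ × τ)` be the quotient by the cyclic group generated by `σ × τ`
(`Surf`), in the example the surface `u^m = f(x) / g(z)`. It has `H^1(X, ℚ) = H^3(X, ℚ) = 0`, and
the same holds for a resolution of its quotient singularities, which has the same zero-cycles modulo
rational equivalence (with rational coefficients). Its geometric genus is the dimension of the
space of invariants of `σ × τ` in `H^0(C, Ω) ⊗ H^0(D, Ω)`, and it is usually positive; then the
group of zero-cycles of degree zero on `X` is infinite-dimensional over the complex numbers by
Mumford's theorem. The conjecture says that it is zero over the algebraic numbers (up to torsion).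

**Theorem.** Let `V` and `V'` be finite-dimensional subspaces of `Pic(C) ⊗ ℚ` and `Pic(D) ⊗ ℚ`
(more generally, vector spaces of finite dimension with linear maps `ι` and `ι'` to these). The
images in `X` of the zero-cycles `a × b`, where `a` is a zero-cycle of degree zero on `C` with class
in `V` and `b` a zero-cycle of degree zero on `D` with class in `V'`, span a subspace of
`CH_0(X) ⊗ ℚ` (`spaceX`) whose dimension is finite and at most the dimension of the space of the
bilinear forms on `V × V'` that are invariant under `σ × τ` and vanish at `(P - o, Q - o')` for all
points `(P, Q)` over `V × V'` whose image in `X` lies on a rational curve on `X` (`InvForms`). In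
particular, if there is no such form but `0`, all points of `X` which are images of points `(P, Q)`
with `P - o` in `V` and `Q - o'` in `V'` have the same class.

For instance, let the curves, the automorphisms and `o`, `o'` be defined over a number field `F`,
and let `V`, `V'` be generated by `J(C)(F)`, `J(D)(F)`. The theorem applies to all products of
zero-cycles of degree zero on `C` and `D` which are defined over `F` (sums of Galois orbits of
points of any degree). If `C = D`, `σ = τ` has prime order `m`, and the rank of `J(C)(F)` is at most
`m - 1`, so that `V` is zero or a one-dimensional space over the field `ℚ(σ)` of degree `m - 1`, then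
there is no such form but `0` as soon as there is a point `P` of `C(F)` such that `P - o` is not a
torsion point: the graphs of the powers of `σ` give rational curves on `X`. In this case all the
products `a × b` are torsion in `CH_0(X)`, and all `F`-rational points `(P, Q)` of `C × C` have the
same class in `CH_0(X) ⊗ ℚ`.

The surface and its zero-cycles are treated by explicit definitions: `C` and `D` are given by their
function fields `K` and `L`, their points are the places of `K` and `L`, and zero-cycles rationally
equivalent to zero are spanned by the push-forwards of the divisors of functions on smooth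
projective curves.
-/

set_option autoImplicit false

namespace Pool.Agent.Q70.Old.ProductsOfCyclicCovers

open FF Pool.Agent.Q70.CH Pool.Agent.Q70.KM Module

/-- The images in `X = (C × D) / (σ × τ)` of the zero-cycles `a × b` of degree zero with the class of
`a` in `V` and that of `b` in `V'` span a space of dimension at most the dimension of the space of
the invariant bilinear forms on `V × V'` vanishing at the points of rational curves; if there is
none but `0`, all points of `X` over `V × V'` have the same class. -/
theorem result {k : Type} [Field k] [CharZero k] [IsAlgClosed k] {K : Type} [Field K]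
    [Algebra k K] [IsFF k K] {L : Type} [Field L] [Algebra k L] [IsFF k L]
    {m n : ℕ} {σ : K ≃ₐ[k] K} {τ : L ≃ₐ[k] L} (hσ : CyclicCover m σ) (hτ : CyclicCover n τ)
    {o : Place k K} {o' : Place k L} (ho : o.comp σ = o) (ho' : o'.comp τ = o')
    {V : Type} [AddCommGroup V] [Module ℚ V] [FiniteDimensional ℚ V] (ι : V →ₗ[ℚ] PicQ k K)
    {V' : Type} [AddCommGroup V'] [Module ℚ V'] [FiniteDimensional ℚ V']
    (ι' : V' →ₗ[ℚ] PicQ k L) :
    FiniteDimensional ℚ (spaceX σ τ ι ι') ∧
      finrank ℚ (spaceX σ τ ι ι') ≤ finrank ℚ (InvForms σ τ o o' ι ι') ∧
      (InvForms σ τ o o' ι ι' = ⊥ → ∀ (P : Place k K) (Q : Place k L), (∃ v, ι v = dif o P) →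
        (∃ w, ι' w = dif o' Q) → pointX σ τ (P, Q) = pointX σ τ (o, o')) := by
  have h : Data m n σ τ o o' := ⟨hσ, hτ, ho, ho'⟩
  obtain ⟨h1, h2⟩ := mainX h ι ι'
  refine ⟨h1, h2, fun hF P Q hP hQ => ?_⟩
  have h3 : finrank ℚ (spaceX σ τ ι ι') = 0 := by
    have h4 : finrank ℚ (InvForms σ τ o o' ι ι') = 0 := by
      rw [hF]
      exact finrank_bot ℚ _
    omega
  have h5 : spaceX σ τ ι ι' = ⊥ := Submodule.finrank_eq_zero.1 h3
  have h6 := point_mem h ι ι' hP hQ
  rw [h5, Submodule.mem_bot, sub_eq_zero] at h6
  exact h6

end Pool.Agent.Q70.Old.ProductsOfCyclicCovers
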